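import Mathlib

namespace Pool.Agent.Results.MP_1e9cc8_nt.Thresholds

/-- The thresholds `N(k)` specified in the conjecture, for `2 ≤ k ≤ 13`. -/
def N : ℕ → ℕ
  | 2 => 16
  | 3 => 36
  | 4 => 46
  | 5 => 76
  | 6 => 79
  | 7 => 79
  | 8 => 85
  | 9 => 118
  | 10 => 136
  | 11 => 155
  | 12 => 155
  | 13 => 188
  | _ => 0

/-- Number of primes in the closed interval `[a, b]`. -/
def primeCount (a b : ℕ) : ℕ := ((Finset.Icc a b).filter Nat.Prime).card

/-- trial division test -/
def test (x : ℕ) : Bool := (List.range' 2 190).all (fun d => x % d != 0)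

lemma test_of_prime {x : ℕ} (hx : x.Prime) (h : 192 ≤ x) : test x = true := by
  unfold test
  rw [List.all_eq_true]
  intro d hd
  rw [List.mem_range'_1] at hd
  simp only [bne_iff_ne, ne_eq]
  intro h0
  have := (Nat.dvd_prime hx).1 (Nat.dvd_of_mod_eq_zero h0)
  omega

lemma count_le (a b : ℕ) (h : 192 ≤ a) :
    primeCount a b ≤ ((List.range' a (b + 1 - a)).filter test).length := by
  unfold primeCount
  refine le_trans (Finset.card_le_card (t := ((List.range' a (b + 1 - a)).filter test).toFinset) ?_)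
    (List.toFinset_card_le _)
  intro x hx
  rw [Finset.mem_filter, Finset.mem_Icc] at hx
  rw [List.mem_toFinset, List.mem_filter, List.mem_range'_1]
  exact ⟨by omega, test_of_prime hx.2 (by omega)⟩

/-- the check for one `k` -/
def chk (k : ℕ) : Bool :=
  let n := N k + 1
  decide (192 ≤ n ^ 2 - n) &&
  (decide (((List.range' (n ^ 2 - n) (n ^ 2 + 1 - (n ^ 2 - n))).filter test).length < k) ||
   decide (((List.range' (n ^ 2) (n ^ 2 + n + 1 - n ^ 2)).filter test).length < k))

lemma chk_all : ∀ k ∈ ({2, 3, 4, 5, 7, 8, 9, 10, 12, 13} : Finset ℕ), chk k = true := by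
  decide +kernel

lemma key : ∀ k ∈ ({2, 3, 4, 5, 7, 8, 9, 10, 12, 13} : Finset ℕ),
    primeCount ((N k + 1) ^ 2 - (N k + 1)) ((N k + 1) ^ 2) < k ∨
      primeCount ((N k + 1) ^ 2) ((N k + 1) ^ 2 + (N k + 1)) < k := by
  intro k hk
  have h := chk_all k hk
  simp only [chk, Bool.and_eq_true, Bool.or_eq_true, decide_eq_true_eq] at h
  obtain ⟨h0, h1 | h1⟩ := h
  · exact Or.inl (lt_of_le_of_lt (count_le _ _ h0) h1)
  · exact Or.inr (lt_of_le_of_lt (count_le _ _ (by omega)) h1)

theorem result : ∀ k ∈ ({2, 3, 4, 5, 7, 8, 9, 10, 12, 13} : Finset ℕ),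
    ¬ ∀ n : ℕ, N k < n →
      k ≤ primeCount (n ^ 2 - n) (n ^ 2) ∧ k ≤ primeCount (n ^ 2) (n ^ 2 + n) := by
  intro k hk h
  have h1 := h (N k + 1) (Nat.lt_succ_self _)
  have h2 := key k hk
  omega

end Pool.Agent.Results.MP_1e9cc8_nt.Thresholds
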